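import Pool.Agent.EQC.Stmts

/-! Squad EQC, row EDM: a graph of maximum degree `Δ` is a union of `2 Δ` matchings. -/

open Finset

namespace Pool.Agent.EQC.H27

open Pool.Agent.EQC
open scoped Classical

section

variable {Ω : Type} [Fintype Ω] {R : Ω → Ω → Prop} {Δ : ℕ}

/-- edges of `S` at `x` different from `xy` -/
theorem star_le (hd : ∀ x, cnt (fun y => R x y) ≤ Δ)
    (S : Finset (Sym2 Ω)) (hS : ∀ a b, s(a, b) ∈ S → R a b) (x y : Ω) (hxy : R x y) :
    (S.filter fun e => x ∈ e ∧ e ≠ s(x, y)).card ≤ Δ - 1 := by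
  have h1 : (S.filter fun e => x ∈ e ∧ e ≠ s(x, y)) ⊆
      ((univ.filter fun z => R x z).erase y).image fun z => s(x, z) := by
    intro e he
    rw [Finset.mem_filter] at he
    obtain ⟨h1, h2, h3⟩ := he
    obtain ⟨z, rfl⟩ := h2
    rw [Finset.mem_image]
    refine ⟨z, ?_, rfl⟩
    rw [Finset.mem_erase, Finset.mem_filter]
    refine ⟨?_, Finset.mem_univ _, hS x z h1⟩
    rintro rfl
    exact h3 rfl
  refine (Finset.card_le_card h1).trans (Finset.card_image_le.trans ?_)
  rw [Finset.card_erase_of_mem (Finset.mem_filter.2 ⟨Finset.mem_univ _, hxy⟩)]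
  have := hd x
  unfold cnt at this
  exact Nat.sub_le_sub_right this 1

theorem colour (hs : ∀ x y, R x y → R y x) (hd : ∀ x, cnt (fun y => R x y) ≤ Δ)
    (h0 : 0 < 2 * Δ) (S : Finset (Sym2 Ω)) (hS : ∀ a b, s(a, b) ∈ S → R a b) :
    ∃ col : Sym2 Ω → Fin (2 * Δ), ∀ e ∈ S, ∀ f ∈ S, e ≠ f → (∃ v, v ∈ e ∧ v ∈ f) →
      col e ≠ col f := by
  induction S using Finset.induction_on with
  | empty => exact ⟨fun _ => ⟨0, h0⟩, fun e he => absurd he (Finset.notMem_empty e)⟩
  | insert e S he ih =>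
    obtain ⟨col, hcol⟩ := ih fun a b h => hS a b (Finset.mem_insert_of_mem h)
    induction e using Sym2.ind with
    | _ x y =>
      have hxy : R x y := hS x y (Finset.mem_insert_self _ _)
      have hS' : ∀ a b, s(a, b) ∈ S → R a b := fun a b h => hS a b (Finset.mem_insert_of_mem h)
      have hx := star_le hd S hS' x y hxy
      have hy := star_le hd S hS' y x (hs x y hxy)
      obtain ⟨Fb, hFb⟩ : ∃ Fb, Fb = ((S.filter fun e => x ∈ e ∧ e ≠ s(x, y)) ∪
        (S.filter fun e => y ∈ e ∧ e ≠ s(y, x))).image col := ⟨_, rfl⟩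
      have hc : Fb.card < (univ : Finset (Fin (2 * Δ))).card := by
        rw [Finset.card_fin, hFb]
        have h1 := Finset.card_image_le (s := (S.filter fun e => x ∈ e ∧ e ≠ s(x, y)) ∪
          (S.filter fun e => y ∈ e ∧ e ≠ s(y, x))) (f := col)
        have h2 := Finset.card_union_le (S.filter fun e => x ∈ e ∧ e ≠ s(x, y))
          (S.filter fun e => y ∈ e ∧ e ≠ s(y, x))
        omega
      obtain ⟨i, -, hi⟩ := Finset.exists_mem_notMem_of_card_lt_card hc
      have hne : ∀ f ∈ S, (∃ v, v ∈ s(x, y) ∧ v ∈ f) → col f ≠ i := by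
        intro f hf hv hcf
        apply hi
        rw [hFb, Finset.mem_image]
        refine ⟨f, ?_, hcf⟩
        obtain ⟨v, hv1, hv2⟩ := hv
        have hfe : f ≠ s(x, y) := by
          rintro rfl
          exact he hf
        rw [Sym2.mem_iff] at hv1
        rcases hv1 with rfl | rfl
        · exact Finset.mem_union_left _ (Finset.mem_filter.2 ⟨hf, hv2, hfe⟩)
        · refine Finset.mem_union_right _ (Finset.mem_filter.2 ⟨hf, hv2, ?_⟩)
          rw [Sym2.eq_swap]
          exact hfe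
      refine ⟨fun f => if f = s(x, y) then i else col f, ?_⟩
      intro f hf g hg hfg hv
      simp only []
      rw [Finset.mem_insert] at hf hg
      by_cases h1 : f = s(x, y)
      · by_cases h2 : g = s(x, y)
        · exact absurd (h1.trans h2.symm) hfg
        · rw [if_pos h1, if_neg h2]
          have hgS : g ∈ S := hg.resolve_left h2
          obtain ⟨v, hv1, hv2⟩ := hv
          exact (hne g hgS ⟨v, h1 ▸ hv1, hv2⟩).symm
      · by_cases h2 : g = s(x, y)
        · rw [if_neg h1, if_pos h2]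
          have hfS : f ∈ S := hf.resolve_left h1
          obtain ⟨v, hv1, hv2⟩ := hv
          exact hne f hfS ⟨v, h2 ▸ hv2, hv1⟩
        · rw [if_neg h1, if_neg h2]
          exact hcol f (hf.resolve_left h1) g (hg.resolve_left h2) hfg hv

end

theorem edm : EdmStmt := by
  intro Δ Ω _ R hs hir hd
  rcases Nat.eq_zero_or_pos Δ with rfl | hΔ
  · refine ⟨fun _ x => x, fun _ _ => rfl, fun x y h => ?_⟩
    exfalso
    have h1 := hd x
    unfold cnt at h1
    have h2 : 0 < (univ.filter fun y => R x y).card :=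
      Finset.card_pos.2 ⟨y, Finset.mem_filter.2 ⟨Finset.mem_univ _, h⟩⟩
    omega
  obtain ⟨S, hS⟩ : ∃ S : Finset (Sym2 Ω), ∀ a b, s(a, b) ∈ S ↔ R a b := by
    refine ⟨(univ.filter fun p : Ω × Ω => R p.1 p.2).image fun p => s(p.1, p.2), ?_⟩
    intro a b
    rw [Finset.mem_image]
    constructor
    · rintro ⟨⟨c, d⟩, h1, h2⟩
      have h3 : R c d := (Finset.mem_filter.1 h1).2
      rcases Sym2.eq_iff.1 h2 with ⟨h4, h5⟩ | ⟨h4, h5⟩
      · simp only [] at h4 h5
        rw [← h4, ← h5]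
        exact h3
      · simp only [] at h4 h5
        rw [← h4, ← h5]
        exact hs _ _ h3
    · intro h
      exact ⟨(a, b), Finset.mem_filter.2 ⟨Finset.mem_univ _, h⟩, rfl⟩
  obtain ⟨col, hcol⟩ := colour hs hd (by omega) S fun a b h => (hS a b).1 h
  have huniq : ∀ x y z, R x y → R x z → col s(x, y) = col s(x, z) → y = z := by
    intro x y z h1 h2 h3
    by_contra hne
    refine hcol _ ((hS _ _).2 h1) _ ((hS _ _).2 h2) ?_ ⟨x, Sym2.mem_mk_left _ _,
      Sym2.mem_mk_left _ _⟩ h3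
    intro h
    exact hne (Sym2.congr_right.1 h)
  obtain ⟨m, hm⟩ : ∃ m : Fin (2 * Δ) → Ω → Ω, ∀ i x,
      (∀ y, R x y → col s(x, y) = i → m i x = y) ∧
      ((¬ ∃ y, R x y ∧ col s(x, y) = i) → m i x = x) := by
    refine ⟨fun i x => if h : ∃ y, R x y ∧ col s(x, y) = i then h.choose else x, ?_⟩
    intro i x
    constructor
    · intro y h1 h2
      have h : ∃ y, R x y ∧ col s(x, y) = i := ⟨y, h1, h2⟩
      simp only [dif_pos h]
      exact huniq x _ y h.choose_spec.1 h1 (h.choose_spec.2.trans h2.symm)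
    · intro h
      simp only [dif_neg h]
  refine ⟨m, fun i x => ?_, fun x y h => ⟨col s(x, y), (hm _ x).1 y h rfl⟩⟩
  by_cases h : ∃ y, R x y ∧ col s(x, y) = i
  · obtain ⟨y, h1, h2⟩ := h
    rw [(hm i x).1 y h1 h2]
    exact (hm i y).1 x (hs x y h1) (by rw [Sym2.eq_swap]; exact h2)
  · rw [(hm i x).2 h, (hm i x).2 h]

end Pool.Agent.EQC.H27
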